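import Pool.Agent.V11327.UKfinal

/-!
# The growth constants of the moments of the Ulam-Kac adder

Lower bound: `E X_{n+1}^m ≥ E X_n^m + (2^m - 1)/(n+1) ∑_{j ≤ n} E X_j^m`, which gives
`c_m ≥ 2 √(2^m - 1)`. Upper bound: the maximum `D_w` of the mixed moments with `w` power sums
satisfies a tridiagonal system, and a strict supersolution `h` of
`(2^(m-w) - 1) h_{w+1} + w h_{w-1} < Λ h_w` gives `c_m ≤ 2 Λ`.
-/

set_option autoImplicit false

open MeasureTheory Filter Topology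
open Pool.Agent.V11327.UK

namespace Pool.Agent.Results.MP_a2947a_pr.AllMoments

/-- `0.3 m ≤ log c_m ≤ 0.4 m + 1` for every `m ≥ 1`. -/
theorem result {Ω : Type} [MeasurableSpace Ω] (P : Measure Ω) [IsProbabilityMeasure P]
    (U : (n : ℕ) → Ω → Fin (n + 1)) (X : ℕ → Ω → ℕ) (h : IsUlamKac P U X) (m : ℕ) (hm : 1 ≤ m)
    (c : ℝ)
    (hc : Tendsto (fun n : ℕ => Real.log (∫ ω, (X n ω : ℝ) ^ m ∂P) / √(n : ℝ)) atTop (𝓝 c)) :
    0.3 * (m : ℝ) ≤ Real.log c ∧ Real.log c ≤ 0.4 * (m : ℝ) + 1 :=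
  main h m hm c hc

end Pool.Agent.Results.MP_a2947a_pr.AllMoments
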